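import Mathlib
import Pool.Agent.Helper23.EC.BKDefs
import Pool.Agent.Helper23.EC.BKMel

set_option autoImplicit false

open UpperHalfPlane Pool.Agent.Helper23.EC.BK

namespace Pool.Agent.Results.MP_ecc237_nt.SixBesselDeterminant

/-- **The conjecture of Broadhurst and Mellit on the `2 × 2` determinant of six-Bessel moments.**

`f46` is the eta product `(η(τ) η(2τ) η(3τ) η(6τ))^2`, `a46 n` the coefficients of its
`q`-expansion, `LSeries a46 5 = Σ_{n ≥ 1} a_n n^(-5)`, and
`IKM a b n = ∫_0^∞ I_0(t)^a K_0(t)^b t^n dt`.  The `q`-expansion represents `f46`, the Dirichlet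
series converges absolutely at `5`, the four moments converge, and their determinant is
`27/(4π²) L(f_{4,6}, 5)`. -/
theorem result :
    (∀ τ : ℍ, HasSum (fun n : ℕ => a46 n * Complex.exp (2 * Real.pi * Complex.I * n * τ))
      (f46 τ)) ∧
    LSeriesSummable a46 5 ∧
    (IKMConverges 0 6 1 ∧ IKMConverges 0 6 3 ∧ IKMConverges 2 4 1 ∧ IKMConverges 2 4 3) ∧
    ((Matrix.det !![IKM 0 6 1, IKM 0 6 3; IKM 2 4 1, IKM 2 4 3] : ℝ) : ℂ) =
      27 / (4 * Real.pi ^ 2) * LSeries a46 5 :=
  Pool.Agent.Helper23.EC.BK.main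

end Pool.Agent.Results.MP_ecc237_nt.SixBesselDeterminant
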